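import Pool.Agent.Q220.PrM.Words

set_option autoImplicit false

/-!
# Prime multiples of a number with finite irrationality exponent: equidistribution at places
-/

namespace Pool.Agent.Q220.PrM

open Finset Pool.Agent.W226.MP Pool.Agent.TH869.LPD
open Pool.Agent.Q29.Eqd (Equi Res prime_eq)

/-- the primes up to `N` in a residue class -/
def PR (N d r : ℕ) : Finset ℕ := (range (N + 1)).filter (fun p => p.Prime ∧ p ≡ r [MOD d])

theorem card_PR (N d r : ℕ) : (PR N d r).card ≤ N := by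
  have h : PR N d r ⊆ Ioc 0 N := by
    intro p hp
    unfold PR at hp
    rw [mem_filter, mem_range] at hp
    rw [mem_Ioc]
    exact ⟨hp.2.1.pos, by omega⟩
  have h2 := card_le_card h
  rwa [Nat.card_Ioc, Nat.sub_zero] at h2

theorem equi_triv (P : Finset ℕ) (y : ℕ → ℝ) (E : ℝ) (h : (P.card : ℝ) ≤ E) : Equi P y E := by
  intro u v hu huv hv
  have h1 : ((P.filter fun n => u ≤ Int.fract (y n) ∧ Int.fract (y n) < v).card : ℝ) ≤ P.card := by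
    exact_mod_cast card_le_card (filter_subset _ _)
  have h2 : (0:ℝ) ≤ ((P.filter fun n => u ≤ Int.fract (y n) ∧ Int.fract (y n) < v).card : ℝ) :=
    Nat.cast_nonneg _
  have h3 : (0:ℝ) ≤ P.card := Nat.cast_nonneg _
  have h4 : 0 ≤ (v - u) * P.card := mul_nonneg (by linarith) h3
  have h5 : (v - u) * P.card ≤ 1 * P.card := mul_le_mul_of_nonneg_right (by linarith) h3
  rw [abs_le]
  constructor <;> linarith

theorem prime_disc : ∃ c : ℝ, 0 < c ∧ c ≤ 1 ∧ ∃ K : ℝ, 1 ≤ K ∧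
    ∀ x κ c0 : ℝ, 0 < κ → 0 < c0 →
    (∀ q : ℕ, 1 ≤ q → ∀ p : ℤ, c0 ≤ (q : ℝ) ^ κ * |q * x - p|) →
    ∀ g : ℕ, 2 ≤ g → ∀ N : ℕ, 1 ≤ N → ∀ S : ℕ, ∃ s : ℕ, S ≤ s ∧
      (s:ℝ) ≤ (1+κ) * S + κ / 4 * (Real.log N / Real.log g) + (|Real.log c0|/Real.log 2 + 1) ∧
      ∀ a : ℤ, a ≠ 0 → |(a:ℝ)| ≤ (N:ℝ)^c → ∀ d r : ℕ, 1 ≤ d → (d : ℝ) ≤ (N : ℝ) ^ c → ∀ β : ℝ,
      Equi (PR N d r) (fun p => (g:ℝ)^s * (a * x * p) + β) (K * N * ((g:ℝ)^2/N)^c) := by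
  obtain ⟨κ₁, hκ₁, M₀, hM₀2, h⟩ := prime_eq (1/4) (by norm_num) (by norm_num)
  have hc : 0 < min κ₁ 1 := lt_min hκ₁ one_pos
  obtain ⟨c, hcd⟩ : ∃ c, c = min κ₁ 1 := ⟨_, rfl⟩
  rw [← hcd] at hc
  have hcκ : c ≤ κ₁ := by rw [hcd]; exact min_le_left _ _
  have hc1 : c ≤ 1 := by rw [hcd]; exact min_le_right _ _
  have hM₀r : (2:ℝ) ≤ M₀ := by exact_mod_cast hM₀2
  obtain ⟨K, hKd⟩ : ∃ K : ℝ, K = 9 + M₀ := ⟨_, rfl⟩
  have hK9 : 9 ≤ K := by rw [hKd]; linarith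
  have hKM : (M₀:ℝ) ≤ K := by rw [hKd]; linarith
  refine ⟨c, hc, hc1, K, by linarith, ?_⟩
  intro x κ c0 hκ hc0 hx g hg N hN S
  have hgr : (2:ℝ) ≤ g := by exact_mod_cast hg
  have hg0 : (0:ℝ) < g := by linarith
  have hNr : (1:ℝ) ≤ N := by exact_mod_cast hN
  have hN0 : (0:ℝ) < N := by linarith
  have hlg : 0 < Real.log g := Real.log_pos (by linarith)
  have hlN : 0 ≤ Real.log N := Real.log_nonneg hNr
  have hl2 : 0 < Real.log 2 := Real.log_pos (by norm_num)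
  by_cases hbig : M₀ ≤ N ∧ 9 * (g:ℝ)^2 ≤ N
  · obtain ⟨hNM, hNg⟩ := hbig
    have hU1 : 1 ≤ (N:ℝ)^(1/4:ℝ) := Real.one_le_rpow hNr (by norm_num)
    have hτ : 0 < 2 * (N:ℝ)^(1/4 - 1:ℝ) := by positivity
    have hcond : ((g:ℝ)+1) * (N:ℝ)^(1/4:ℝ) * (2 * (N:ℝ)^(1/4 - 1:ℝ)) ≤ 1 := by
      have e1 : (N:ℝ)^(1/4:ℝ) * (N:ℝ)^(1/4 - 1:ℝ) = (N:ℝ)^(-(1/2:ℝ)) := by
        rw [← Real.rpow_add hN0]; norm_num
      have e2 : ((g:ℝ)+1) * (N:ℝ)^(1/4:ℝ) * (2 * (N:ℝ)^(1/4 - 1:ℝ)) =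
          2 * ((g:ℝ)+1) * (N:ℝ)^(-(1/2:ℝ)) := by rw [← e1]; ring
      rw [e2, Real.rpow_neg hN0.le, ← Real.sqrt_eq_rpow]
      have hs : 3 * (g:ℝ) ≤ Real.sqrt N := by
        apply Real.le_sqrt_of_sq_le
        nlinarith
      have hs0 : 0 < Real.sqrt N := Real.sqrt_pos.2 hN0
      rw [mul_inv_le_iff₀ hs0]
      linarith
    obtain ⟨s, hs1, hs2, hs3⟩ := good_place x κ c0 hκ hc0 hx g hg 1 one_ne_zero
      ((N:ℝ)^(1/4:ℝ)) (2 * (N:ℝ)^(1/4 - 1:ℝ)) hU1 hτ hcond S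
    refine ⟨s, hs1, ?_, ?_⟩
    · refine hs2.trans (le_of_eq ?_)
      have e3 : ((|(1:ℤ)| : ℤ) : ℝ) = 1 := by simp
      rw [e3, mul_one, Real.log_rpow hN0]
      ring
    · intro a ha haN d r hd hdN β
      have hres : ¬ Res (1/4) N ((g:ℝ)^s * x) := by
        rintro ⟨q, hq1, hq2, t, ht⟩
        apply hs3
        refine ⟨q, hq1, hq2, t, ?_⟩
        have e4 : (q:ℝ) * (g:ℝ)^s * (((1:ℤ):ℝ) * x) - t = (q:ℝ) * ((g:ℝ)^s * x) - t := by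
          push_cast; ring
        rw [e4]
        have : 0 < (N:ℝ)^(1/4 - 1:ℝ) := by positivity
        linarith
      have hNκ : (N:ℝ)^c ≤ (N:ℝ)^κ₁ := Real.rpow_le_rpow_of_exponent_le hNr hcκ
      have h1 := h N hNM ((g:ℝ)^s * x) hres a ha (haN.trans hNκ) d r hd (hdN.trans hNκ) β
      have e5 : (fun p : ℕ => (a:ℝ) * ((g:ℝ)^s * x) * p + β) =
          (fun p : ℕ => (g:ℝ)^s * (a * x * p) + β) := by
        funext p; ring
      rw [e5] at h1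
      refine h1.mono ?_
      have e6 : (N:ℝ)^(1 - κ₁) ≤ (N:ℝ)^(1 - c) :=
        Real.rpow_le_rpow_of_exponent_le hNr (by linarith)
      have e7 : (N:ℝ)^(1 - c) = N * (1 / N : ℝ)^c := by
        rw [Real.rpow_sub hN0, Real.rpow_one, Real.div_rpow zero_le_one hN0.le, Real.one_rpow]
        ring
      have e8 : (1 / N : ℝ)^c ≤ ((g:ℝ)^2/N)^c := by
        apply Real.rpow_le_rpow (by positivity) _ hc.le
        gcongr
        nlinarith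
      calc (N:ℝ)^(1 - κ₁) ≤ N * (1 / N : ℝ)^c := e6.trans (le_of_eq e7)
        _ ≤ N * ((g:ℝ)^2/N)^c := by gcongr
        _ = 1 * N * ((g:ℝ)^2/N)^c := by ring
        _ ≤ K * N * ((g:ℝ)^2/N)^c := by gcongr; linarith
  · refine ⟨S, le_rfl, ?_, ?_⟩
    · have h1 : 0 ≤ κ * (S:ℝ) := by positivity
      have h2 : 0 ≤ κ / 4 * (Real.log N / Real.log g) := by positivity
      have h3 : 0 ≤ |Real.log c0| / Real.log 2 := by positivity
      linarith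
    · intro a ha haN d r hd hdN β
      apply equi_triv
      have h0 : ((PR N d r).card : ℝ) ≤ N := by exact_mod_cast card_PR N d r
      refine h0.trans ?_
      have h1 : 1 ≤ K * ((g:ℝ)^2/N)^c := by
        rcases not_and_or.1 hbig with h2 | h2
        · have h3 : (N:ℝ) ≤ M₀ := by exact_mod_cast (not_le.1 h2).le
          have h4 : (1 / (N:ℝ)) ≤ (1 / N : ℝ)^c := by
            have h5 : (1 / N : ℝ) ≤ 1 := by rw [div_le_one hN0]; exact hNr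
            calc (1 / (N:ℝ)) = (1 / N : ℝ)^(1:ℝ) := (Real.rpow_one _).symm
              _ ≤ (1 / N : ℝ)^c := Real.rpow_le_rpow_of_exponent_ge (by positivity) h5 hc1
          have h6 : (1 / N : ℝ)^c ≤ ((g:ℝ)^2/N)^c := by
            apply Real.rpow_le_rpow (by positivity) _ hc.le
            gcongr
            nlinarith
          calc (1:ℝ) = N * (1 / N) := by field_simp
            _ ≤ K * ((g:ℝ)^2/N)^c := by
              apply mul_le_mul (h3.trans hKM) (h4.trans h6) (by positivity) (by linarith)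
        · have h3 : 1/9 ≤ (g:ℝ)^2/N := by
            rw [le_div_iff₀ hN0]
            linarith [not_le.1 h2]
          have h4 : (1/9:ℝ) ≤ ((g:ℝ)^2/N)^c := by
            calc (1/9:ℝ) = (1/9:ℝ)^(1:ℝ) := (Real.rpow_one _).symm
              _ ≤ (1/9:ℝ)^c := Real.rpow_le_rpow_of_exponent_ge (by norm_num) (by norm_num) hc1
              _ ≤ _ := Real.rpow_le_rpow (by norm_num) h3 hc.le
          calc (1:ℝ) = 9 * (1/9) := by norm_num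
            _ ≤ K * ((g:ℝ)^2/N)^c := by
              apply mul_le_mul hK9 h4 (by norm_num) (by linarith)
      calc (N:ℝ) = 1 * N := by ring
        _ ≤ (K * ((g:ℝ)^2/N)^c) * N := by gcongr
        _ = K * N * ((g:ℝ)^2/N)^c := by ring

open Classical in
/-- **Main theorem.** -/
theorem main : ∃ c K : ℝ, 0 < c ∧ 0 < K ∧ ∀ x κ c0 : ℝ, 0 < κ → 0 < c0 →
    (∀ q : ℕ, 1 ≤ q → ∀ p : ℤ, c0 ≤ (q : ℝ) ^ κ * |q * x - p|) → ∀ N : ℕ, 1 ≤ N →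
    (∀ a : ℤ, a ≠ 0 → |(a:ℝ)| ≤ (N:ℝ)^c → ∀ d r : ℕ, 1 ≤ d → (d : ℝ) ≤ (N : ℝ) ^ c → ∀ β : ℝ,
      ∀ B k : ℕ, 2 ≤ B → 1 ≤ k →
        (((PR N d r).filter (fun p : ℕ => ∃ b : ℕ, 2 ≤ b ∧ b ≤ B ∧ ∃ w : Fin k → Fin b,
          {i : ℕ | OccursAt b k w (a * x * p + β) i}.Finite)).card : ℝ) ≤
        K * (B:ℝ)^(k+1) * N * ((B:ℝ)^2/N)^(c / (2 * k * (B:ℝ)^k * Real.log B))) ∧
    (∀ b : ℕ, 2 ≤ b → ∀ S : ℕ, ∃ s : ℕ, S ≤ s ∧
      (s:ℝ) ≤ (1+κ) * S + κ / 4 * (Real.log N / Real.log b) + (|Real.log c0|/Real.log 2 + 1) ∧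
      ∀ a : ℤ, a ≠ 0 → |(a:ℝ)| ≤ (N:ℝ)^c → ∀ d r : ℕ, 1 ≤ d → (d : ℝ) ≤ (N : ℝ) ^ c → ∀ β : ℝ,
      (∀ u v : ℝ, 0 ≤ u → u ≤ v → v ≤ 1 →
        |(((PR N d r).filter fun p : ℕ => u ≤ Int.fract ((b:ℝ)^s * (a * x * p + β)) ∧
          Int.fract ((b:ℝ)^s * (a * x * p + β)) < v).card : ℝ) - (v - u) * (PR N d r).card| ≤
          K * N * ((b:ℝ)^2/N)^c) ∧
      (∀ k L : ℕ, 1 ≤ k → k ≤ L → (b:ℝ)^L ≤ ((N:ℝ)/(b:ℝ)^2)^c → ∀ ε : ℝ, 0 < ε → ε ≤ 1 →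
        (((PR N d r).filter (fun p : ℕ => ∃ w : Fin k → Fin b, ε * (L + 1 - k : ℕ) + k <
          |(occ b k w (a * x * p + β) s (L + 1 - k) : ℝ) -
            (L + 1 - k : ℕ) / (b : ℝ) ^ k|)).card : ℝ) ≤
          K * k * (b:ℝ)^k * Real.exp (-(ε ^ 2 / 4) * ((L + 1 - k) / k : ℕ)) * N)) := by
  obtain ⟨c, hc, hc1, K, hK, h⟩ := prime_disc
  refine ⟨c, 2 * (1 + K), hc, by linarith, ?_⟩
  intro x κ c0 hκ hc0 hx N hN
  have hNr : (1:ℝ) ≤ N := by exact_mod_cast hN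
  have hN0 : (0:ℝ) < N := by linarith
  have hsh : ∀ (b s : ℕ) (a : ℤ) (β : ℝ), (fun p : ℕ => (b:ℝ)^s * ((a:ℝ) * x * p + β)) =
      (fun p : ℕ => (b:ℝ)^s * (a * x * p) + (b:ℝ)^s * β) := by
    intro b s a β; funext p; ring
  refine ⟨?_, ?_⟩
  · intro a ha haN d r hd hdN β B k hB hk
    refine wordsB B k hB hk (PR N d r) (fun p => a * x * p + β) K c N hN (card_PR N d r)
      (by linarith) hc ?_
    intro b hb _ S
    obtain ⟨s, h1, _, h3⟩ := h x κ c0 hκ hc0 hx b hb N hN S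
    refine ⟨s, h1, ?_⟩
    have h4 := h3 a ha haN d r hd hdN ((b:ℝ)^s * β)
    rw [hsh b s a β]
    exact h4
  · intro b hb S
    obtain ⟨s, h1, h2, h3⟩ := h x κ c0 hκ hc0 hx b hb N hN S
    refine ⟨s, h1, h2, ?_⟩
    intro a ha haN d r hd hdN β
    have hbr : (2:ℝ) ≤ b := by exact_mod_cast hb
    have hb0 : (0:ℝ) < b := by linarith
    have hE : Equi (PR N d r) (fun p : ℕ => (b:ℝ)^s * ((a:ℝ) * x * p + β))
        (K * N * ((b:ℝ)^2/N)^c) := by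
      rw [hsh b s a β]
      exact h3 a ha haN d r hd hdN ((b:ℝ)^s * β)
    refine ⟨?_, ?_⟩
    · intro u v hu huv hv
      refine (hE u v hu huv hv).trans ?_
      have : 0 ≤ (N:ℝ) * ((b:ℝ)^2/N)^c := by positivity
      nlinarith
    · intro k L hk hkL hL ε hε hε1
      have h5 := freqP b k L hb hk hkL s (PR N d r) (fun p => (a:ℝ) * x * p + β)
        (K * N * ((b:ℝ)^2/N)^c) (by positivity) hE ε hε hε1
      refine h5.trans ?_
      have hD0 : (0:ℝ) < (b:ℝ)^2 := by positivity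
      have hinv : ((N:ℝ)/(b:ℝ)^2)^c * ((b:ℝ)^2/N)^c = 1 := by
        rw [← Real.mul_rpow (by positivity) (by positivity)]
        have : (N:ℝ)/(b:ℝ)^2 * ((b:ℝ)^2/N) = 1 := by field_simp
        rw [this, Real.one_rpow]
      have h6 : (b:ℝ)^L * (K * N * ((b:ℝ)^2/N)^c) ≤ K * N := by
        calc (b:ℝ)^L * (K * N * ((b:ℝ)^2/N)^c)
            ≤ ((N:ℝ)/(b:ℝ)^2)^c * (K * N * ((b:ℝ)^2/N)^c) := by gcongr
          _ = K * N * (((N:ℝ)/(b:ℝ)^2)^c * ((b:ℝ)^2/N)^c) := by ring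
          _ = K * N := by rw [hinv, mul_one]
      have h7 : ((PR N d r).card : ℝ) ≤ N := by exact_mod_cast card_PR N d r
      have h8 : ((PR N d r).card : ℝ) + (b:ℝ)^L * (K * N * ((b:ℝ)^2/N)^c) ≤ (1 + K) * N := by
        linarith
      calc 2 * k * (b:ℝ)^k * Real.exp (-(ε ^ 2 / 4) * ((L + 1 - k) / k : ℕ)) *
            ((PR N d r).card + (b:ℝ)^L * (K * N * ((b:ℝ)^2/N)^c))
          ≤ 2 * k * (b:ℝ)^k * Real.exp (-(ε ^ 2 / 4) * ((L + 1 - k) / k : ℕ)) *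
            ((1 + K) * N) := by gcongr
        _ = _ := by ring

end Pool.Agent.Q220.PrM
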