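import Pool.Agent.TH869.LPD.Words
import Pool.Agent.TH869.LPD.Place
import Pool.Agent.Q29.EqPrime

set_option autoImplicit false

/-!
# Blocks of digits of the numbers `y p`, `p` in a finite set which is well distributed at places
-/

namespace Pool.Agent.Q220.PrM

open Finset Pool.Agent.W226.MP Pool.Agent.TH869.LPD
open Pool.Agent.Q29.Eqd (Equi)

/-- the values of `y` on `P`, numbered -/
noncomputable def pull (P : Finset ℕ) (y : ℕ → ℝ) (i : ℕ) : ℝ :=
  if h : i < P.card then y ((P.equivFin.symm ⟨i, h⟩ : P) : ℕ) else 0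

open Classical in
theorem pull_card (P : Finset ℕ) (y : ℕ → ℝ) (φ : ℝ → Prop) :
    ((range P.card).filter (fun i => φ (pull P y i))).card = (P.filter (fun p => φ (y p))).card := by
  refine Finset.card_bij
    (fun i hi => ((P.equivFin.symm ⟨i, mem_range.1 (mem_filter.1 hi).1⟩ : P) : ℕ)) ?_ ?_ ?_
  · intro i hi
    rw [mem_filter, mem_range] at hi
    rw [mem_filter]
    refine ⟨(P.equivFin.symm ⟨i, hi.1⟩).2, ?_⟩
    have h := hi.2
    unfold pull at h
    rwa [dif_pos hi.1] at h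
  · intro i hi j hj hij
    have h1 := Subtype.ext hij
    have h2 := P.equivFin.symm.injective h1
    exact congrArg Fin.val h2
  · intro p hp
    rw [mem_filter] at hp
    refine ⟨(P.equivFin ⟨p, hp.1⟩ : ℕ), ?_, ?_⟩
    · rw [mem_filter, mem_range]
      refine ⟨(P.equivFin ⟨p, hp.1⟩).2, ?_⟩
      unfold pull
      rw [dif_pos (P.equivFin ⟨p, hp.1⟩).2]
      simpa using hp.2
    · simp

open Classical in
/-- the cells -/
theorem cells (b L n : ℕ) (hb : 2 ≤ b) (P : Finset ℕ) (y : ℕ → ℝ) (Δ : ℝ)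
    (hE : Equi P (fun p => (b:ℝ)^n * y p) Δ) (z : ℕ) (hz : z < b ^ L) :
    (((range P.card).filter (fun m : ℕ =>
      ⌊Int.fract (pull P y m * (b:ℝ)^n) * ((b ^ L : ℕ) : ℝ)⌋₊ = z)).card : ℝ) ≤
      P.card / (b:ℝ)^L + Δ := by
  have hb0 : (0:ℝ) < b := by
    have : (2:ℝ) ≤ b := by exact_mod_cast hb
    linarith
  have hbL : (0:ℝ) < (b:ℝ)^L := by positivity
  have e1 : ((range P.card).filter (fun m : ℕ =>
      ⌊Int.fract (pull P y m * (b:ℝ)^n) * ((b ^ L : ℕ) : ℝ)⌋₊ = z)).card =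
      (P.filter (fun p => ⌊Int.fract (y p * (b:ℝ)^n) * ((b ^ L : ℕ) : ℝ)⌋₊ = z)).card := by
    convert pull_card P y (fun t => ⌊Int.fract (t * (b:ℝ)^n) * ((b ^ L : ℕ) : ℝ)⌋₊ = z) using 3
  rw [e1]
  have hz' : (z:ℝ) + 1 ≤ (b:ℝ)^L := by exact_mod_cast hz
  have h1 := hE (z / (b:ℝ)^L) ((z+1) / (b:ℝ)^L) (by positivity) (by gcongr; linarith)
    (by rw [div_le_one hbL]; exact hz')
  have h2 := (abs_le.1 h1).2
  have h3 : (((z:ℝ)+1) / (b:ℝ)^L - z / (b:ℝ)^L) * P.card = P.card / (b:ℝ)^L := by ring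
  rw [h3] at h2
  have h4 : P.filter (fun p => ⌊Int.fract (y p * (b:ℝ)^n) * ((b ^ L : ℕ) : ℝ)⌋₊ = z) ⊆
      P.filter (fun p => z / (b:ℝ)^L ≤ Int.fract ((b:ℝ)^n * y p) ∧
        Int.fract ((b:ℝ)^n * y p) < (z+1) / (b:ℝ)^L) := by
    intro p hp
    rw [mem_filter] at hp ⊢
    refine ⟨hp.1, ?_⟩
    have h5 := hp.2
    rw [mul_comm (y p), Nat.cast_pow] at h5
    have h0 : 0 ≤ Int.fract ((b:ℝ)^n * y p) * (b:ℝ)^L := mul_nonneg (Int.fract_nonneg _) hbL.le
    rwa [Nat.floor_eq_iff h0, ← div_le_iff₀ hbL, ← lt_div_iff₀ hbL] at h5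
  have h5 : ((P.filter (fun p => ⌊Int.fract (y p * (b:ℝ)^n) * ((b ^ L : ℕ) : ℝ)⌋₊ = z)).card : ℝ) ≤
      ((P.filter (fun p => z / (b:ℝ)^L ≤ Int.fract ((b:ℝ)^n * y p) ∧
        Int.fract ((b:ℝ)^n * y p) < (z+1) / (b:ℝ)^L)).card : ℝ) := by
    exact_mod_cast card_le_card h4
  linarith

open Classical in
/-- **Frequencies.** -/
theorem freqP (b k L : ℕ) (hb : 2 ≤ b) (hk : 1 ≤ k) (hkL : k ≤ L) (n : ℕ) (P : Finset ℕ)
    (y : ℕ → ℝ) (Δ : ℝ) (hΔ : 0 ≤ Δ) (hE : Equi P (fun p => (b:ℝ)^n * y p) Δ)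
    (ε : ℝ) (hε : 0 < ε) (hε1 : ε ≤ 1) :
    ((P.filter (fun p => ∃ w : Fin k → Fin b, ε * (L + 1 - k : ℕ) + k <
      |(occ b k w (y p) n (L + 1 - k) : ℝ) - (L + 1 - k : ℕ) / (b : ℝ) ^ k|)).card : ℝ) ≤
      2 * k * (b:ℝ)^k * Real.exp (-(ε ^ 2 / 4) * ((L + 1 - k) / k : ℕ)) *
        (P.card + (b:ℝ)^L * Δ) := by
  have hb0 : (0:ℝ) < b := by
    have : (2:ℝ) ≤ b := by exact_mod_cast hb
    linarith
  have hbL : (0:ℝ) < (b:ℝ)^L := by positivity
  have e0 : (P.filter (fun p => ∃ w : Fin k → Fin b, ε * (L + 1 - k : ℕ) + k <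
      |(occ b k w (y p) n (L + 1 - k) : ℝ) - (L + 1 - k : ℕ) / (b : ℝ) ^ k|)).card =
      ((range P.card).filter (fun i => ∃ w : Fin k → Fin b, ε * (L + 1 - k : ℕ) + k <
      |(occ b k w (pull P y i) n (L + 1 - k) : ℝ) - (L + 1 - k : ℕ) / (b : ℝ) ^ k|)).card := by
    symm
    convert pull_card P y (fun t => ∃ w : Fin k → Fin b, ε * (L + 1 - k : ℕ) + k <
      |(occ b k w t n (L + 1 - k) : ℝ) - (L + 1 - k : ℕ) / (b : ℝ) ^ k|) using 3
  rw [e0]
  have h1 := freqG b k L hb hk hkL n P.card (pull P y) (P.card / (b:ℝ)^L + Δ) (by positivity)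
    (fun z hz => by
      have := cells b L n hb P y Δ hE z hz
      convert this using 3) ε hε hε1
    ((range P.card).filter (fun i => ∃ w : Fin k → Fin b, ε * (L + 1 - k : ℕ) + k <
      |(occ b k w (pull P y i) n (L + 1 - k) : ℝ) - (L + 1 - k : ℕ) / (b : ℝ) ^ k|)) (by
        intro m hm
        rw [Finset.mem_filter, Finset.mem_range] at hm
        obtain ⟨hmM, w, hw⟩ := hm
        refine ⟨hmM, ext b k w, ext_lt b k hb w, ?_⟩
        have e : ((range (L + 1 - k)).filter (fun j =>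
            ∀ s' < k, ⌊(pull P y m) * (b : ℝ) ^ (n + j + s' + 1)⌋ % (b : ℤ) = ext b k w s')).card
            = occ b k w (pull P y m) n (L + 1 - k) := by
          unfold occ
          congr 1
          apply Finset.filter_congr
          intro j _
          exact (occursAt_iff b k w (pull P y m) (n + j)).symm
        rw [e]
        exact hw)
  refine h1.trans (le_of_eq ?_)
  have e2 : (b:ℝ)^L * (P.card / (b:ℝ)^L + Δ) = P.card + (b:ℝ)^L * Δ := by field_simp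
  rw [e2]

open Classical in
/-- **Avoided blocks.** -/
theorem avoidP (b k m : ℕ) (hb : 2 ≤ b) (hk : 1 ≤ k) (P : Finset ℕ)
    (y : ℕ → ℝ) (Δ : ℝ) (hΔ : 0 ≤ Δ)
    (hE : ∀ S : ℕ, ∃ s : ℕ, S ≤ s ∧ Equi P (fun p => (b:ℝ)^s * y p) Δ) (w : Fin k → Fin b) :
    ((P.filter (fun p => {i : ℕ | OccursAt b k w (y p) i}.Finite)).card : ℝ) ≤
      Real.exp (-(m / (2 * (b:ℝ) ^ k))) * (P.card + (b:ℝ)^(k * m) * Δ) := by
  have hb0 : (0:ℝ) < b := by
    have : (2:ℝ) ≤ b := by exact_mod_cast hb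
    linarith
  have hbL : (0:ℝ) < (b:ℝ)^(k*m) := by positivity
  have h2 : ∀ p ∈ P.filter (fun p => {i : ℕ | OccursAt b k w (y p) i}.Finite),
      ∃ n0 : ℕ, ∀ i : ℕ, n0 ≤ i → ¬ OccursAt b k w (y p) i := by
    intro l hl
    obtain ⟨n0, hn0⟩ := (mem_filter.1 hl).2.bddAbove
    refine ⟨n0 + 1, fun p hp hcon => ?_⟩
    have := hn0 hcon
    omega
  choose! n0 hn0 using h2
  obtain ⟨s, hs, hsE⟩ := hE ((P.filter (fun p => {i : ℕ | OccursAt b k w (y p) i}.Finite)).sup n0)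
  have h3 : P.filter (fun p => {i : ℕ | OccursAt b k w (y p) i}.Finite) ⊆
      P.filter (fun p => ∀ u < m, ¬ OccursAt b k w (y p) (s + k * u)) := by
    intro p hp
    refine mem_filter.2 ⟨(mem_filter.1 hp).1, fun u _ => hn0 p hp _ ?_⟩
    have := Finset.le_sup (f := n0) hp
    omega
  have h4 : ((P.filter (fun p => {i : ℕ | OccursAt b k w (y p) i}.Finite)).card : ℝ) ≤
      ((P.filter (fun p => ∀ u < m, ¬ OccursAt b k w (y p) (s + k * u))).card : ℝ) := by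
    exact_mod_cast card_le_card h3
  refine h4.trans ?_
  have e0 : (P.filter (fun p => ∀ u < m, ¬ OccursAt b k w (y p) (s + k * u))).card =
      ((range P.card).filter (fun i => ∀ u < m, ¬ OccursAt b k w (pull P y i) (s + k * u))).card := by
    symm
    convert pull_card P y (fun t => ∀ u < m, ¬ OccursAt b k w t (s + k * u)) using 3
  rw [e0]
  have h1 := avoidG b k m hb hk s P.card (pull P y) (P.card / (b:ℝ)^(k*m) + Δ) (by positivity)
    (fun z hz => by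
      have := cells b (k*m) s hb P y Δ hsE z hz
      convert this using 3) w
    ((range P.card).filter (fun i => ∀ u < m, ¬ OccursAt b k w (pull P y i) (s + k * u))) (by
      intro l hl
      rw [mem_filter, mem_range] at hl
      exact hl)
  refine h1.trans (le_of_eq ?_)
  have e2 : (b:ℝ)^(k*m) * (P.card / (b:ℝ)^(k*m) + Δ) = P.card + (b:ℝ)^(k*m) * Δ := by field_simp
  rw [e2]

open Classical in
/-- **All blocks, one base.** -/
theorem wordsP (b k : ℕ) (hb : 2 ≤ b) (hk : 1 ≤ k) (P : Finset ℕ) (y : ℕ → ℝ) (K c : ℝ) (N : ℕ)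
    (hN : 1 ≤ N) (hPN : P.card ≤ N) (hK : 0 ≤ K) (hc : 0 < c)
    (hE : ∀ S : ℕ, ∃ s : ℕ, S ≤ s ∧ Equi P (fun p => (b:ℝ)^s * y p) (K * N * ((b:ℝ)^2/N)^c)) :
    ((P.filter (fun p => ∃ w : Fin k → Fin b, {i : ℕ | OccursAt b k w (y p) i}.Finite)).card : ℝ) ≤
      2 * (1 + K) * (b:ℝ)^k * N * ((b:ℝ)^2/N)^(c / (2 * k * (b:ℝ)^k * Real.log b)) := by
  have hbr : (2:ℝ) ≤ b := by exact_mod_cast hb
  have hb0 : (0:ℝ) < b := by linarith
  have hNr : (1:ℝ) ≤ N := by exact_mod_cast hN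
  have hN0 : (0:ℝ) < N := by linarith
  have hlb : 0 < Real.log b := Real.log_pos (by linarith)
  have hkr : (1:ℝ) ≤ k := by exact_mod_cast hk
  have hPNr : (P.card : ℝ) ≤ N := by exact_mod_cast hPN
  obtain ⟨D, hD⟩ : ∃ D : ℝ, D = (b:ℝ)^2 := ⟨_, rfl⟩
  have hD0 : 0 < D := by rw [hD]; positivity
  rw [← hD] at hE ⊢
  set E : ℝ := c / (2 * k * (b:ℝ)^k * Real.log b) with hEd
  have hE0 : 0 < E := by positivity
  have hbk : (1:ℝ) ≤ (b:ℝ)^k := one_le_pow₀ (by linarith)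
  set T : Finset ℕ := P.filter (fun p => ∃ w : Fin k → Fin b,
    {i : ℕ | OccursAt b k w (y p) i}.Finite) with hT
  set Δ : ℝ := K * N * (D/N)^c with hΔ
  have hΔ0 : 0 ≤ Δ := by positivity
  rcases lt_or_ge (N:ℝ) D with hNb | hNb
  · have h1 : (T.card : ℝ) ≤ N := by
      have : T.card ≤ P.card := card_le_card (filter_subset _ _)
      have h2 : (T.card : ℝ) ≤ P.card := by exact_mod_cast this
      linarith
    have h2 : 1 ≤ (D/N)^E := by
      apply Real.one_le_rpow _ hE0.le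
      rw [le_div_iff₀ hN0]; linarith
    calc (T.card : ℝ) ≤ 1 * 1 * N * 1 := by linarith
      _ ≤ 2 * (1+K) * (b:ℝ)^k * N * (D/N)^E := by gcongr; linarith
  · have hinv : ((N:ℝ)/D)^c * (D/N)^c = 1 := by
      rw [← Real.mul_rpow (by positivity) (by positivity)]
      have : (N:ℝ)/D * (D/N) = 1 := by field_simp
      rw [this, Real.one_rpow]
    have hNb1 : 1 ≤ (N:ℝ)/D := by rw [le_div_iff₀ hD0]; linarith
    have hlNb : 0 ≤ Real.log ((N:ℝ)/D) := Real.log_nonneg hNb1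
    set m : ℕ := ⌊c * Real.log ((N:ℝ)/D) / (k * Real.log b)⌋₊ with hm
    have hm1 : (m:ℝ) ≤ c * Real.log ((N:ℝ)/D) / (k * Real.log b) := Nat.floor_le (by positivity)
    have hm2 : c * Real.log ((N:ℝ)/D) / (k * Real.log b) < m + 1 := Nat.lt_floor_add_one _
    have hL : (b:ℝ)^(k*m) ≤ ((N:ℝ)/D)^c := by
      rw [← Real.log_le_log_iff (by positivity) (by positivity), Real.log_pow,
        Real.log_rpow (by positivity)]
      rw [le_div_iff₀ (by positivity)] at hm1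
      push_cast
      linarith
    have hwin : P.card + (b:ℝ)^(k*m) * Δ ≤ (1+K) * N := by
      have h2 : (b:ℝ)^(k*m) * Δ ≤ K * N := by
        calc (b:ℝ)^(k*m) * Δ ≤ ((N:ℝ)/D)^c * Δ := by gcongr
          _ = K * N * (((N:ℝ)/D)^c * (D/N)^c) := by rw [hΔ]; ring
          _ = K * N := by rw [hinv, mul_one]
      linarith
    have h4 : Real.exp (-(m / (2 * (b:ℝ) ^ k))) ≤ 2 * (D/N)^E := by
      have h5 : (D/N)^E = Real.exp (-(E * Real.log ((N:ℝ)/D))) := by
        rw [Real.rpow_def_of_pos (by positivity)]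
        congr 1
        have : Real.log (D/N) = - Real.log ((N:ℝ)/D) := by
          rw [← Real.log_inv, inv_div]
        rw [this]; ring
      have h6 : -(m / (2 * (b:ℝ) ^ k)) ≤ 1/2 + -(E * Real.log ((N:ℝ)/D)) := by
        have h7 : E * Real.log ((N:ℝ)/D) =
            c * Real.log ((N:ℝ)/D) / (k * Real.log b) / (2 * (b:ℝ)^k) := by
          rw [hEd]; field_simp
        have h8 : c * Real.log ((N:ℝ)/D) / (k * Real.log b) / (2 * (b:ℝ)^k) ≤
            (m+1) / (2 * (b:ℝ)^k) := by gcongr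
        have h9 : ((m:ℝ)+1) / (2 * (b:ℝ)^k) = m / (2 * (b:ℝ)^k) + 1 / (2 * (b:ℝ)^k) := by ring
        have h10 : 1 / (2 * (b:ℝ)^k) ≤ 1/2 := by
          rw [div_le_div_iff₀ (by positivity) (by norm_num)]
          linarith
        rw [h7]; linarith
      have h7 : Real.exp (1/2) ≤ 2 := by
        have h8 := Real.exp_one_lt_d9
        have h9 : Real.exp (1/2) * Real.exp (1/2) = Real.exp 1 := by
          rw [← Real.exp_add]; norm_num
        nlinarith [Real.exp_pos (1/2)]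
      calc Real.exp (-(m / (2 * (b:ℝ) ^ k))) ≤ Real.exp (1/2 + -(E * Real.log ((N:ℝ)/D))) :=
            Real.exp_le_exp.2 h6
        _ = Real.exp (1/2) * (D/N)^E := by rw [Real.exp_add, h5]
        _ ≤ 2 * (D/N)^E := by gcongr
    have hTwb : ∀ w : Fin k → Fin b,
        ((P.filter (fun p => {i : ℕ | OccursAt b k w (y p) i}.Finite)).card : ℝ) ≤
          2 * (1+K) * N * (D/N)^E := by
      intro w
      calc ((P.filter (fun p => {i : ℕ | OccursAt b k w (y p) i}.Finite)).card : ℝ) ≤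
            Real.exp (-(m / (2 * (b:ℝ) ^ k))) * (P.card + (b:ℝ)^(k * m) * Δ) :=
              avoidP b k m hb hk P y Δ hΔ0 hE w
        _ ≤ (2 * (D/N)^E) * ((1+K) * N) := by gcongr
        _ = _ := by ring
    have h5 : T.card ≤ ∑ w : Fin k → Fin b,
        (P.filter (fun p => {i : ℕ | OccursAt b k w (y p) i}.Finite)).card := by
      refine (card_le_card ?_).trans card_biUnion_le
      intro l hl
      rw [hT, Finset.mem_filter] at hl
      obtain ⟨hl1, w, hw⟩ := hl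
      rw [mem_biUnion]
      exact ⟨w, mem_univ _, mem_filter.2 ⟨hl1, hw⟩⟩
    have h6 : (T.card : ℝ) ≤ ∑ w : Fin k → Fin b,
        ((P.filter (fun p => {i : ℕ | OccursAt b k w (y p) i}.Finite)).card : ℝ) := by
      exact_mod_cast h5
    refine h6.trans ((sum_le_sum fun w _ => hTwb w).trans ?_)
    rw [sum_const, card_univ, Fintype.card_fun, Fintype.card_fin, Fintype.card_fin, nsmul_eq_mul]
    push_cast
    apply le_of_eq
    ring

open Classical in
/-- **All blocks, all bases up to `B`.** -/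
theorem wordsB (B k : ℕ) (hB : 2 ≤ B) (hk : 1 ≤ k) (P : Finset ℕ) (y : ℕ → ℝ) (K c : ℝ) (N : ℕ)
    (hN : 1 ≤ N) (hPN : P.card ≤ N) (hK : 0 ≤ K) (hc : 0 < c)
    (hE : ∀ b : ℕ, 2 ≤ b → b ≤ B → ∀ S : ℕ, ∃ s : ℕ, S ≤ s ∧
      Equi P (fun p => (b:ℝ)^s * y p) (K * N * ((b:ℝ)^2/N)^c)) :
    ((P.filter (fun p => ∃ b : ℕ, 2 ≤ b ∧ b ≤ B ∧ ∃ w : Fin k → Fin b,
        {i : ℕ | OccursAt b k w (y p) i}.Finite)).card : ℝ) ≤
      2 * (1 + K) * (B:ℝ)^(k+1) * N * ((B:ℝ)^2/N)^(c / (2 * k * (B:ℝ)^k * Real.log B)) := by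
  have hBr : (2:ℝ) ≤ B := by exact_mod_cast hB
  have hkr : (1:ℝ) ≤ k := by exact_mod_cast hk
  have hNr : (1:ℝ) ≤ N := by exact_mod_cast hN
  have hN0 : (0:ℝ) < N := by linarith
  have hlB : 0 < Real.log B := Real.log_pos (by linarith)
  set E : ℝ := c / (2 * k * (B:ℝ)^k * Real.log B) with hEd
  have hE0 : 0 < E := by positivity
  have hBk : (1:ℝ) ≤ (B:ℝ)^(k+1) := one_le_pow₀ (by linarith)
  have hPNr : (P.card : ℝ) ≤ N := by exact_mod_cast hPN
  set T : Finset ℕ := P.filter (fun p => ∃ b : ℕ, 2 ≤ b ∧ b ≤ B ∧ ∃ w : Fin k → Fin b,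
    {i : ℕ | OccursAt b k w (y p) i}.Finite) with hT
  rcases lt_or_ge (N:ℝ) ((B:ℝ)^2) with hNB | hNB
  · have h1 : (T.card : ℝ) ≤ N := by
      have : T.card ≤ P.card := card_le_card (filter_subset _ _)
      have h2 : (T.card : ℝ) ≤ P.card := by exact_mod_cast this
      linarith
    have h2 : 1 ≤ ((B:ℝ)^2/N)^E := by
      apply Real.one_le_rpow _ hE0.le
      rw [le_div_iff₀ hN0]; linarith
    calc (T.card : ℝ) ≤ 1 * 1 * N * 1 := by linarith
      _ ≤ 2 * (1+K) * (B:ℝ)^(k+1) * N * ((B:ℝ)^2/N)^E := by gcongr; linarith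
  · have hTb : ∀ b ∈ Icc 2 B, ((P.filter (fun p => ∃ w : Fin k → Fin b,
        {i : ℕ | OccursAt b k w (y p) i}.Finite)).card : ℝ) ≤
          2 * (1 + K) * (B:ℝ)^k * N * ((B:ℝ)^2/N)^E := by
      intro b hb
      rw [mem_Icc] at hb
      have h3 := wordsP b k hb.1 hk P y K c N hN hPN hK hc (hE b hb.1 hb.2)
      refine h3.trans ?_
      have hbr : (2:ℝ) ≤ b := by exact_mod_cast hb.1
      have hbB : (b:ℝ) ≤ B := by exact_mod_cast hb.2
      have hlb : 0 < Real.log b := Real.log_pos (by linarith)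
      have hlbB : Real.log b ≤ Real.log B := Real.log_le_log (by linarith) hbB
      have hb2 : (b:ℝ)^2 ≤ (B:ℝ)^2 := by gcongr
      have h4 : ((b:ℝ)^2/N)^(c / (2 * k * (b:ℝ)^k * Real.log b)) ≤ ((B:ℝ)^2/N)^E := by
        calc ((b:ℝ)^2/N)^(c / (2 * k * (b:ℝ)^k * Real.log b)) ≤ ((b:ℝ)^2/N)^E := by
              apply Real.rpow_le_rpow_of_exponent_ge (by positivity)
              · rw [div_le_one (by linarith)]; linarith
              · rw [hEd]
                apply div_le_div_of_nonneg_left hc.le (by positivity)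
                gcongr
          _ ≤ ((B:ℝ)^2/N)^E := by
              apply Real.rpow_le_rpow (by positivity) _ hE0.le
              gcongr
      gcongr
    have hsub : T ⊆ (Icc 2 B).biUnion (fun b => P.filter (fun p => ∃ w : Fin k → Fin b,
        {i : ℕ | OccursAt b k w (y p) i}.Finite)) := by
      intro l hl
      rw [hT, mem_filter] at hl
      obtain ⟨hl1, b, hb1, hb2, hw⟩ := hl
      rw [mem_biUnion]
      exact ⟨b, mem_Icc.2 ⟨hb1, hb2⟩, mem_filter.2 ⟨hl1, hw⟩⟩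
    have h5 : T.card ≤ ∑ b ∈ Icc 2 B, (P.filter (fun p => ∃ w : Fin k → Fin b,
        {i : ℕ | OccursAt b k w (y p) i}.Finite)).card := (card_le_card hsub).trans card_biUnion_le
    have h6 : (T.card : ℝ) ≤ ∑ b ∈ Icc 2 B, ((P.filter (fun p => ∃ w : Fin k → Fin b,
        {i : ℕ | OccursAt b k w (y p) i}.Finite)).card : ℝ) := by exact_mod_cast h5
    refine h6.trans ((sum_le_sum hTb).trans ?_)
    rw [sum_const, nsmul_eq_mul, Nat.card_Icc]
    have h7 : ((B + 1 - 2 : ℕ) : ℝ) ≤ B := by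
      have : B + 1 - 2 ≤ B := by omega
      exact_mod_cast this
    have h8 : 0 ≤ 2 * (1 + K) * (B:ℝ)^k * N * ((B:ℝ)^2/N)^E := by positivity
    calc ((B + 1 - 2 : ℕ) : ℝ) * (2 * (1 + K) * (B:ℝ)^k * N * ((B:ℝ)^2/N)^E)
        ≤ B * (2 * (1 + K) * (B:ℝ)^k * N * ((B:ℝ)^2/N)^E) := mul_le_mul_of_nonneg_right h7 h8
      _ = 2 * (1 + K) * (B:ℝ)^(k+1) * N * ((B:ℝ)^2/N)^E := by rw [pow_succ]; ring

end Pool.Agent.Q220.PrM
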